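import Mathlib
import Pool.Agent.Lib.helper3.WCO

namespace Pool.Agent.Results.MP_4b0b35_an.Quasinilpotent

open Metric

/-- The Hardy space `H²`, as the space of square summable Taylor coefficient sequences. -/
def H2 : Type := lp (fun _ : ℕ => ℂ) 2

noncomputable instance : NormedAddCommGroup H2 :=
  lp.normedAddCommGroup (E := fun _ : ℕ => ℂ) (p := 2)

noncomputable instance : NormedSpace ℂ H2 :=
  lp.instNormedSpace (E := fun _ : ℕ => ℂ) (p := 2)

/-- The Taylor coefficients of `f ∈ H²`. -/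
def coeff (f : H2) : ℕ → ℂ := f.1

/-- The value `f(z) = ∑ aₙ zⁿ`. -/
noncomputable def ev (f : H2) (z : ℂ) : ℂ := ∑' n, coeff f n * z ^ n

/-- `T` is the weighted composition operator `f ↦ ψ · (f ∘ φ)` on `H²`. -/
def IsWCO (ψ φ : ℂ → ℂ) (T : H2 →L[ℂ] H2) : Prop :=
  ∀ f : H2, ∀ z ∈ ball (0 : ℂ) 1, ev (T f) z = ψ z * ev f (φ z)

/-- A compact weighted composition operator on `H²` whose composition symbol has no fixed point
in the disc has spectrum `{0}`. -/
theorem result (ψ φ : ℂ → ℂ) (hψ : DifferentiableOn ℂ ψ (ball 0 1))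
    (hφ : DifferentiableOn ℂ φ (ball 0 1)) (hmaps : Set.MapsTo φ (ball 0 1) (ball 0 1))
    (hfix : ∀ z ∈ ball (0 : ℂ) 1, φ z ≠ z) (T : H2 →L[ℂ] H2) (hT : IsWCO ψ φ T)
    (hc : IsCompactOperator T) : spectrum ℂ T = {0} :=
  Pool.Agent.Lib.H3WCO.main ψ φ hψ hφ hmaps hfix T hT hc

end Pool.Agent.Results.MP_4b0b35_an.Quasinilpotent
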